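import Pool.Agent.W312.WT.StmP

/-! Project WT: the solution in polynomial time. -/

set_option autoImplicit false

namespace Pool.Agent.W800.WT

open Pool.Agent.NPC Pool.Agent.W312.WT

theorem proof_PSolve : PSolve := by
  intro hS hsort hkeys hstep htab hbest hbound
  obtain ⟨b, hb⟩ := hbound
  have hid : Poly (fun q : ℕ × List Jb => q) := Poly.id
  -- the step of the fold
  have h1 : Poly (fun p : (ℕ × List Jb) × List Ent × Jb =>
      tabE (keys p.1.2.length (cands p.1.1 p.1.2) (ths p.1.2)) (stepE p.1.1 p.2.2 p.2.1)) := by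
    have e1 : Poly (fun p : (ℕ × List Jb) × List Ent × Jb =>
        keys p.1.2.length (cands p.1.1 p.1.2) (ths p.1.2)) := hkeys.1.comp (Poly.fst Poly.id)
    have e2 : Poly (fun p : (ℕ × List Jb) × List Ent × Jb => stepE p.1.1 p.2.2 p.2.1) :=
      Poly.comp (g := fun q : ℕ × Jb × List Ent => stepE q.1 q.2.1 q.2.2)
        (f := fun p : (ℕ × List Jb) × List Ent × Jb => (p.1.1, p.2.2, p.2.1)) hstep
        (Poly.pair (Poly.fst (Poly.fst Poly.id)) (Poly.pair (Poly.snd (Poly.snd Poly.id))
          (Poly.fst (Poly.snd Poly.id))))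
    exact Poly.comp (g := fun q : List Key × List Ent => tabE q.1 q.2)
      (f := fun p : (ℕ × List Jb) × List Ent × Jb =>
        (keys p.1.2.length (cands p.1.1 p.1.2) (ths p.1.2), stepE p.1.1 p.2.2 p.2.1)) htab
      (Poly.pair e1 e2)
  have h2 : Poly (fun q : ℕ × List Jb => sortW q.2) := hsort.comp (Poly.snd Poly.id)
  have htable : Poly (fun q : ℕ × List Jb => table q.1 q.2 (sortW q.2)) := by
    refine (Poly.foldl (l := fun q : ℕ × List Jb => sortW q.2)
      (s := fun q => initE q.2.length (cands q.1 q.2) (ths q.2))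
      (F := fun q T x => tabE (keys q.2.length (cands q.1 q.2) (ths q.2)) (stepE q.1 x T))
      h2 hkeys.2 h1 b ?_).congr fun q => rfl
    rintro ⟨p, L⟩ k hk
    obtain ⟨s1, s2⟩ := hS L
    refine hb p L ((sortW L).take k) ?_ ?_ ?_
    · exact s2.sublist (List.take_sublist k _)
    · intro x hx
      exact s1.mem_iff.1 (List.mem_of_mem_take hx)
    · rw [List.length_take, ← s1.length_eq]
      exact min_le_right _ _
  -- the filter
  have htop : Poly (fun L : List Jb => topH L) := by
    refine (NPC.Poly.sum (NPC.Poly.map (l := fun L : List Jb => L) (F := fun _ x => x.2.1 + 1)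
      Poly.id (NPC.Poly.succ (Poly.fst (Poly.snd (Poly.snd Poly.id)))))).congr fun L => rfl
  have hfull : Poly (fun p : (ℕ × List Jb) × Ent => isFull p.1.2 p.2) := by
    have k1 : Poly (fun p : (ℕ × List Jb) × Ent => p.2.1.1) :=
      Poly.fst (Poly.fst (Poly.snd Poly.id))
    have k2 : Poly (fun p : (ℕ × List Jb) × Ent => p.2.1.2.1) :=
      Poly.fst (Poly.snd (Poly.fst (Poly.snd Poly.id)))
    have k3 : Poly (fun p : (ℕ × List Jb) × Ent => p.2.1.2.2.1) :=
      Poly.fst (Poly.snd (Poly.snd (Poly.fst (Poly.snd Poly.id))))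
    have k4 : Poly (fun p : (ℕ × List Jb) × Ent => p.1.2) := Poly.snd (Poly.fst Poly.id)
    have t1 : Poly (fun p : (ℕ × List Jb) × Ent => decide (p.2.1.1 = (0, topH p.1.2))) :=
      Poly.decide_eq k1 (Poly.pair (NPC.Poly.const 0) (htop.comp k4))
    have t2 : Poly (fun p : (ℕ × List Jb) × Ent => decide (p.2.1.2.1 = (0, p.1.2.length))) :=
      Poly.decide_eq k2 (Poly.pair (NPC.Poly.const 0) (Poly.length k4))
    have t3 : Poly (fun p : (ℕ × List Jb) × Ent => decide (p.2.1.2.2.1 = 0)) :=
      Poly.decide_eq k3 (NPC.Poly.const 0)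
    exact (Poly.and t1 (Poly.and t2 t3)).congr fun p => rfl
  have hfil : Poly (fun q : ℕ × List Jb =>
      (table q.1 q.2 (sortW q.2)).filter (isFull q.2)) :=
    Poly.filter (l := fun q : ℕ × List Jb => table q.1 q.2 (sortW q.2))
      (p := fun q e => isFull q.2 e) htable hfull
  refine (Poly.optCases (o := fun q : ℕ × List Jb =>
      best ((table q.1 q.2 (sortW q.2)).filter (isFull q.2)))
    (g := fun _ => ([] : List (Jb × ℕ))) (h := fun _ e => e.2) (hbest.comp hfil)
    (NPC.Poly.const _) (Poly.snd (Poly.snd Poly.id))).congr ?_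
  intro q
  unfold solve
  cases best ((table q.1 q.2 (sortW q.2)).filter (isFull q.2)) <;> rfl

end Pool.Agent.W800.WT
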