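import Pool.Agent.W312.WT.StmP

/-! Project WT: the cheapest entry and pruning in polynomial time. -/

set_option autoImplicit false

namespace Pool.Agent.W800.WT

open Pool.Agent.NPC Pool.Agent.W312.WT

theorem proof_PBest : PBest := by
  intro hB hC
  have h1 : Poly (fun p : List Ent × Option Ent × Ent => better p.2.1 p.2.2) := by
    have hb : Poly (fun p : (List Ent × Option Ent × Ent) × Ent =>
        if cst p.1.2.2.2 < cst p.2.2 then some p.1.2.2 else some p.2) := by
      refine Poly.ite (p := fun p : (List Ent × Option Ent × Ent) × Ent =>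
        cst p.1.2.2.2 < cst p.2.2) ?_ ?_ ?_
      · exact Poly.decide_lt
          (hC.comp (Poly.snd (Poly.snd (Poly.snd (Poly.fst Poly.id)))))
          (hC.comp (Poly.snd (Poly.snd Poly.id)))
      · exact Poly.some (Poly.snd (Poly.snd (Poly.fst Poly.id)))
      · exact Poly.some (Poly.snd Poly.id)
    refine (Poly.optCases (o := fun p : List Ent × Option Ent × Ent => p.2.1)
      (g := fun p => some p.2.2)
      (h := fun p f => if cst p.2.2.2 < cst f.2 then some p.2.2 else some f)
      (Poly.fst (Poly.snd Poly.id)) (Poly.some (Poly.snd (Poly.snd Poly.id))) hb).congr ?_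
    rintro ⟨l, o, e⟩
    cases o <;> rfl
  refine (Poly.foldl (l := fun l : List Ent => l) (s := fun _ => (none : Option Ent))
    (F := fun _ o e => better o e) Poly.id (NPC.Poly.const _) h1
    (Polynomial.X + Polynomial.C 2) ?_).congr fun l => rfl
  intro l k hk
  simp only [Polynomial.eval_add, Polynomial.eval_X, Polynomial.eval_C]
  have h2 : (l.take k).foldl (fun o e => better o e) none = best (l.take k) := rfl
  rw [h2]
  cases hb : best (l.take k) with
  | none =>
    rw [sz_none]
    omega
  | some f =>
    have h3 := hB.1 _ _ hb
    have h4 := sz_le_of_mem (List.mem_of_mem_take h3)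
    rw [sz_some]
    omega

theorem proof_PTab : PTab := by
  intro hb
  have h1 : Poly (fun p : (List Key × List Ent) × Key =>
      p.1.2.filter (fun e => decide (e.1 = p.2))) := by
    refine Poly.filter (l := fun p : (List Key × List Ent) × Key => p.1.2)
      (p := fun p e => decide (e.1 = p.2)) (Poly.snd (Poly.fst Poly.id)) ?_
    exact Poly.decide_eq (Poly.fst (Poly.snd Poly.id)) (Poly.snd (Poly.fst Poly.id))
  have h2 : Poly (fun p : (List Key × List Ent) × Key =>
      (best (p.1.2.filter (fun e => decide (e.1 = p.2)))).toList) := by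
    refine (Poly.optCases (o := fun p : (List Key × List Ent) × Key =>
        best (p.1.2.filter (fun e => decide (e.1 = p.2)))) (g := fun _ => ([] : List Ent))
      (h := fun _ f => [f]) (hb.comp h1) (NPC.Poly.const _)
      (Poly.cons (Poly.snd Poly.id) (NPC.Poly.const _))).congr ?_
    intro p
    cases best (p.1.2.filter (fun e => decide (e.1 = p.2))) <;> rfl
  exact (Poly.flatMap (l := fun q : List Key × List Ent => q.1)
    (F := fun q k => (best (q.2.filter (fun e => decide (e.1 = k)))).toList)
    (Poly.fst Poly.id) h2).congr fun q => rfl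

end Pool.Agent.W800.WT
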